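import Pool.Agent.R877.RN.Stm2

/-! Project RN, piece LC: existence of the metric and of its Levi-Civita connection. -/

namespace R877.RN
open Matrix Filter Topology

theorem p_LC : P_LC := by
  intro g _ _ ι _ _ b
  obtain ⟨B, hB⟩ : ∃ B : g →ₗ[ℝ] g →ₗ[ℝ] ℝ, ∀ x y, B x y = ∑ i, b.repr x i * b.repr y i := by
    refine ⟨∑ i, (LinearMap.mul ℝ ℝ).compl₁₂ (b.coord i) (b.coord i), fun x y => ?_⟩
    simp [LinearMap.sum_apply, LinearMap.compl₁₂_apply]
  have hsymm : ∀ x y, B x y = B y x := by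
    intro x y
    rw [hB, hB]
    exact Finset.sum_congr rfl fun i _ => mul_comm _ _
  have hBb : ∀ x k, B x (b k) = b.repr x k := by
    intro x k
    rw [hB]
    simp [Module.Basis.repr_self, Finsupp.single_apply]
  obtain ⟨D, hD⟩ : ∃ D : g →ₗ[ℝ] g →ₗ[ℝ] g, ∀ x y, D x y =
      ∑ k, ((1/2 : ℝ) * (B ⁅x, y⁆ (b k) - B ⁅y, b k⁆ x + B ⁅b k, x⁆ y)) • b k := by
    refine ⟨LinearMap.mk₂ ℝ (fun x y =>
      ∑ k, ((1/2 : ℝ) * (B ⁅x, y⁆ (b k) - B ⁅y, b k⁆ x + B ⁅b k, x⁆ y)) • b k) ?_ ?_ ?_ ?_,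
      fun x y => rfl⟩
    · intro x x' y
      rw [← Finset.sum_add_distrib]
      refine Finset.sum_congr rfl fun k _ => ?_
      rw [← add_smul]
      congr 1
      simp only [add_lie, lie_add, map_add, LinearMap.add_apply]
      ring
    · intro r x y
      rw [Finset.smul_sum]
      refine Finset.sum_congr rfl fun k _ => ?_
      rw [smul_smul]
      congr 1
      simp only [smul_lie, lie_smul, map_smul, LinearMap.smul_apply, smul_eq_mul]
      ring
    · intro x y y'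
      rw [← Finset.sum_add_distrib]
      refine Finset.sum_congr rfl fun k _ => ?_
      rw [← add_smul]
      congr 1
      simp only [add_lie, lie_add, map_add, LinearMap.add_apply]
      ring
    · intro r x y
      rw [Finset.smul_sum]
      refine Finset.sum_congr rfl fun k _ => ?_
      rw [smul_smul]
      congr 1
      simp only [smul_lie, lie_smul, map_smul, LinearMap.smul_apply, smul_eq_mul]
      ring
  have hsum : ∀ z : g, ∑ k, b.repr z k • b k = z := fun z => b.sum_repr z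
  have hDrepr : ∀ x y k, b.repr (D x y) k =
      (1/2 : ℝ) * (B ⁅x, y⁆ (b k) - B ⁅y, b k⁆ x + B ⁅b k, x⁆ y) := by
    intro x y k
    rw [hD]
    simp [Finsupp.single_apply]
  -- Koszul formula
  have hK : ∀ x y z, B (D x y) z = (1/2 : ℝ) * (B ⁅x, y⁆ z - B ⁅y, z⁆ x + B ⁅z, x⁆ y) := by
    intro x y z
    have h1 : B (D x y) z = ∑ k, b.repr z k *
        ((1/2 : ℝ) * (B ⁅x, y⁆ (b k) - B ⁅y, b k⁆ x + B ⁅b k, x⁆ y)) := by
      rw [hB]
      refine Finset.sum_congr rfl fun k _ => ?_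
      rw [hDrepr, mul_comm]
    rw [h1]
    have h2 : (B ⁅x, y⁆ z - B ⁅y, z⁆ x + B ⁅z, x⁆ y) =
        ∑ k, b.repr z k * (B ⁅x, y⁆ (b k) - B ⁅y, b k⁆ x + B ⁅b k, x⁆ y) := by
      conv_lhs => rw [← hsum z]
      simp only [map_sum, map_smul, LinearMap.sum_apply, LinearMap.smul_apply, smul_eq_mul,
        lie_sum, lie_smul, sum_lie, smul_lie]
      rw [← Finset.sum_sub_distrib, ← Finset.sum_add_distrib]
      refine Finset.sum_congr rfl fun k _ => ?_
      ring
    rw [h2, Finset.mul_sum]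
    refine Finset.sum_congr rfl fun k _ => ?_
    ring
  refine ⟨B, D, ⟨hsymm, ?_⟩, ⟨?_, ?_⟩, ?_⟩
  · intro x hx
    rw [hB]
    have h0 : ∃ i, b.repr x i ≠ 0 := by
      by_contra hcon
      push Not at hcon
      apply hx
      apply b.repr.injective
      ext i
      simp [hcon i]
    obtain ⟨i, hi⟩ := h0
    exact Finset.sum_pos' (fun j _ => mul_self_nonneg _) ⟨i, Finset.mem_univ _, mul_self_pos.mpr hi⟩
  · intro x y
    apply b.repr.injective
    ext k
    rw [map_sub, Finsupp.sub_apply, hDrepr, hDrepr, ← hBb ⁅x, y⁆ k]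
    have e1 : ⁅y, x⁆ = -⁅x, y⁆ := (lie_skew y x).symm
    have e2 : ⁅x, b k⁆ = -⁅b k, x⁆ := (lie_skew x (b k)).symm
    have e3 : ⁅b k, y⁆ = -⁅y, b k⁆ := (lie_skew (b k) y).symm
    rw [e1, e2, e3]
    simp only [map_neg, LinearMap.neg_apply]
    ring
  · intro x y z
    rw [hK, hsymm y, hK]
    have e1 : ⁅x, z⁆ = -⁅z, x⁆ := (lie_skew x z).symm
    have e2 : ⁅z, y⁆ = -⁅y, z⁆ := (lie_skew z y).symm
    have e3 : ⁅y, x⁆ = -⁅x, y⁆ := (lie_skew y x).symm
    rw [e1, e2, e3]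
    simp only [map_neg, LinearMap.neg_apply]
    ring
  · intro i j
    rw [hBb, Module.Basis.repr_self, Finsupp.single_apply]

end R877.RN
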